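import Pool.Agent.Y745.SW.DefsA

set_option autoImplicit false

/-! The exceptional set for the local law (helper141, for the SW project of helper745). -/

namespace Pool.Agent.Y141.SW

open MeasureTheory Filter Topology Set Metric Pool.Agent.Y745.SW

/-- the local law for `log |zeta|` on the critical line -/
def P_LL : Prop := ∀ ε : ℝ, 0 < ε → ∃ (E : Set ℝ) (W δ : ℝ), MeasurableSet E ∧ 0 < W ∧ 0 < δ ∧
  δ ≤ 1 / 4 ∧
  (∀ j : ℕ, ∀ t ∈ E, (2 : ℝ) ^ j ≤ t → t < (2 : ℝ) ^ (j + 1) → riemannZeta (1 / 2 + t * Complex.I) ≠ 0 ∧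
      |Real.log ‖riemannZeta (1 / 2 + t * Complex.I)‖ - (Py (2 ^ (δ * j)) t).re| ≤ W) ∧
  ∀ᶠ T : ℝ in atTop, (1 - ε) * T ≤ volume.real (E ∩ Set.Icc T (2 * T))

lemma Py_cont (y : ℝ) : Continuous fun t : ℝ => Py y t := by
  unfold Py
  refine continuous_finsetSum _ fun p hp => ?_
  have hp0 : (p : ℂ) ≠ 0 := by
    have := (Finset.mem_filter.mp hp).2.ne_zero
    exact_mod_cast this
  refine Continuous.const_cpow ?_ (Or.inl hp0)
  fun_prop

lemma Px_cont (T : ℝ) : Continuous fun t : ℝ => Px T t := Py_cont _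

lemma tendsto_S : Tendsto (fun T : ℝ => Real.sqrt (Real.log (Real.log T))) atTop atTop :=
  Real.tendsto_sqrt_atTop.comp (Real.tendsto_log_atTop.comp Real.tendsto_log_atTop)

/-- Chebyshev for the difference of the prime sums -/
lemma cheb_DX (hDX : P_DX) (δ η ε : ℝ) (hδ : 0 < δ) (hδ1 : δ ≤ 1 / 4) (hη : 0 < η) (hε : 0 < ε) :
    ∀ᶠ T : ℝ in atTop, ∀ y : ℝ, T ^ δ / 2 ≤ y → y ≤ 2 * T ^ δ →
      volume.real {t ∈ Set.Icc T (2 * T) | η * Real.sqrt (Real.log (Real.log T)) < ‖Py y t - Px T t‖} ≤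
        ε * T := by
  filter_upwards [hDX δ (ε * η ^ 2) hδ hδ1 (by positivity), tendsto_S.eventually_ge_atTop 1,
    eventually_ge_atTop (1:ℝ)] with T hT hS hT1 y hy1 hy2
  have h1 := hT y hy1 hy2
  set S := Real.sqrt (Real.log (Real.log T)) with hSd
  have hll : Real.log (Real.log T) = S ^ 2 := by
    rw [hSd, Real.sq_sqrt]
    by_contra h
    push Not at h
    have : S = 0 := Real.sqrt_eq_zero_of_nonpos h.le
    linarith
  set A : Set ℝ := {t ∈ Set.Icc T (2 * T) | η * S < ‖Py y t - Px T t‖} with hA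
  have hc : Continuous fun t : ℝ => ‖Py y t - Px T t‖ ^ 2 :=
    ((Py_cont y).sub (Px_cont T)).norm.pow 2
  have hAm : MeasurableSet A := by
    have h2 : MeasurableSet {t : ℝ | η * S < ‖Py y t - Px T t‖} :=
      measurableSet_lt measurable_const ((Py_cont y).sub (Px_cont T)).norm.measurable
    exact measurableSet_Icc.inter h2
  have hAf : volume A ≠ ⊤ := by
    refine ne_top_of_le_ne_top ?_ (measure_mono (Set.sep_subset _ _))
    rw [Real.volume_Icc]; exact ENNReal.ofReal_ne_top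
  have hle : (η * S) ^ 2 * volume.real A ≤ ∫ t in T..(2 * T), ‖Py y t - Px T t‖ ^ 2 := by
    rw [intervalIntegral.integral_of_le (by linarith), ← integral_Icc_eq_integral_Ioc]
    calc (η * S) ^ 2 * volume.real A = ∫ _ in A, (η * S) ^ 2 := by
          rw [setIntegral_const, smul_eq_mul, mul_comm]
      _ ≤ ∫ t in A, ‖Py y t - Px T t‖ ^ 2 := by
          refine setIntegral_mono_on (integrableOn_const hAf) ?_ hAm ?_
          · exact (hc.integrableOn_Icc).mono_set (Set.sep_subset _ _)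
          · intro t ht
            have := ht.2
            have h0 : 0 ≤ η * S := by positivity
            gcongr
      _ ≤ ∫ t in Set.Icc T (2 * T), ‖Py y t - Px T t‖ ^ 2 := by
          refine setIntegral_mono_set hc.integrableOn_Icc ?_ ?_
          · exact Eventually.of_forall fun t => by positivity
          · exact (Set.sep_subset _ _).eventuallyLE
  have h2 := hle.trans h1
  rw [hll] at h2
  have h3 : (η * S) ^ 2 * volume.real A ≤ (η * S) ^ 2 * (ε * T) := by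
    calc _ ≤ _ := h2
      _ = _ := by ring
  exact le_of_mul_le_mul_left h3 (by positivity)

/-- the exceptional set -/
theorem exc (hBV : P_BV) (hDX : P_DX) (hLL : P_LL) (η ε : ℝ) (hη : 0 < η) (hε : 0 < ε) :
    ∃ W : ℝ, 0 < W ∧ ∀ᶠ T : ℝ in atTop, ∃ X : Set ℝ, volume X ≤ ENNReal.ofReal (ε * T) ∧
      ∀ t ∈ Set.Icc T (2 * T), t ∉ X → riemannZeta (1 / 2 + t * Complex.I) ≠ 0 ∧
        ∀ u : ℝ, |u| ≤ 1 / Real.log T → |Real.log ‖riemannZeta (1 / 2 + t * Complex.I)‖ -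
          (Px T (t + u)).re| ≤ W + η * Real.sqrt (Real.log (Real.log T)) := by
  obtain ⟨E, W, δ, mE, hW, hδ, hδ4, hE, hEv⟩ := hLL (ε / 4) (by positivity)
  refine ⟨W + 1, by positivity, ?_⟩
  filter_upwards [hEv, cheb_DX hDX δ η (ε / 4) hδ hδ4 hη (by positivity),
    hBV 1 (ε / 4) one_pos (by positivity), eventually_ge_atTop (2:ℝ)] with T h1 h2 h3 hT2
  obtain ⟨Bd, mBd, hBdsub, hBdv, hBd⟩ := h3
  have hT0 : 0 < T := by linarith
  -- dyadic index
  set J : ℕ := ⌊Real.logb 2 T⌋₊ with hJ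
  have hlogb : 0 ≤ Real.logb 2 T := Real.logb_nonneg (by norm_num) (by linarith)
  have hJ1 : (2:ℝ) ^ J ≤ T := by
    have h4 : (J : ℝ) ≤ Real.logb 2 T := Nat.floor_le hlogb
    rw [← Real.rpow_natCast]
    exact (Real.le_logb_iff_rpow_le (by norm_num) hT0).mp h4
  have hJ2 : T < (2:ℝ) ^ (J + 1) := by
    have h4 : Real.logb 2 T < ((J + 1 : ℕ) : ℝ) := by
      push_cast; exact Nat.lt_floor_add_one _
    rw [← Real.rpow_natCast]
    exact (Real.logb_lt_iff_lt_rpow (by norm_num) hT0).mp h4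
  set S := Real.sqrt (Real.log (Real.log T)) with hS
  let A : ℕ → Set ℝ := fun j =>
    {t ∈ Set.Icc T (2 * T) | η * S < ‖Py (2 ^ (δ * j)) t - Px T t‖}
  have hyr : ∀ j : ℕ, T / 2 ≤ (2:ℝ) ^ j → (2:ℝ) ^ j ≤ 2 * T →
      T ^ δ / 2 ≤ (2:ℝ) ^ (δ * j) ∧ (2:ℝ) ^ (δ * j) ≤ 2 * T ^ δ := by
    intro j hj1 hj2
    have e : (2:ℝ) ^ (δ * j) = ((2:ℝ) ^ j) ^ δ := by
      rw [mul_comm, Real.rpow_mul (by norm_num), Real.rpow_natCast]
    have h2δ : (2:ℝ) ^ δ ≤ 2 := by
      calc (2:ℝ) ^ δ ≤ (2:ℝ) ^ (1:ℝ) := Real.rpow_le_rpow_of_exponent_le (by norm_num) (by linarith)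
        _ = 2 := Real.rpow_one 2
    have hTδ : 0 < T ^ δ := Real.rpow_pos_of_pos hT0 _
    have h2δ0 : 0 < (2:ℝ) ^ δ := Real.rpow_pos_of_pos (by norm_num) _
    rw [e]
    constructor
    · calc T ^ δ / 2 ≤ T ^ δ / (2:ℝ) ^ δ := by gcongr
        _ = (T / 2) ^ δ := by rw [Real.div_rpow hT0.le (by norm_num)]
        _ ≤ _ := Real.rpow_le_rpow (by positivity) hj1 hδ.le
    · calc ((2:ℝ) ^ j) ^ δ ≤ (2 * T) ^ δ := Real.rpow_le_rpow (by positivity) hj2 hδ.le
        _ = 2 ^ δ * T ^ δ := by rw [Real.mul_rpow (by norm_num) hT0.le]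
        _ ≤ 2 * T ^ δ := by gcongr
  have hAv : ∀ j : ℕ, T / 2 ≤ (2:ℝ) ^ j → (2:ℝ) ^ j ≤ 2 * T → volume (A j) ≤ ENNReal.ofReal (ε / 4 * T) := by
    intro j hj1 hj2
    obtain ⟨a1, a2⟩ := hyr j hj1 hj2
    have h4 := h2 _ a1 a2
    have hAf : volume (A j) ≠ ⊤ := by
      refine ne_top_of_le_ne_top ?_ (measure_mono (Set.sep_subset _ _))
      rw [Real.volume_Icc]; exact ENNReal.ofReal_ne_top
    rw [← ENNReal.ofReal_toReal hAf]
    exact ENNReal.ofReal_le_ofReal h4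
  have hJa : T / 2 ≤ (2:ℝ) ^ J := by rw [pow_succ] at hJ2; linarith
  have hJb : (2:ℝ) ^ J ≤ 2 * T := by linarith
  have hJc : T / 2 ≤ (2:ℝ) ^ (J + 1) := by linarith
  have hJd : (2:ℝ) ^ (J + 1) ≤ 2 * T := by rw [pow_succ]; linarith
  refine ⟨(Set.Icc T (2 * T) \ E) ∪ Bd ∪ (A J ∪ A (J + 1)), ?_, ?_⟩
  · have v1 : volume (Set.Icc T (2 * T) \ E) ≤ ENNReal.ofReal (ε / 4 * T) := by
      have h4 := measureReal_inter_add_sdiff (μ := volume) (s := Set.Icc T (2 * T)) mE (by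
        rw [Real.volume_Icc]; exact ENNReal.ofReal_ne_top)
      rw [Real.volume_real_Icc_of_le (by linarith)] at h4
      rw [Set.inter_comm] at h1
      have hf : volume (Set.Icc T (2 * T) \ E) ≠ ⊤ := by
        refine ne_top_of_le_ne_top ?_ (measure_mono Set.sdiff_subset)
        rw [Real.volume_Icc]; exact ENNReal.ofReal_ne_top
      rw [← ENNReal.ofReal_toReal hf]
      refine ENNReal.ofReal_le_ofReal ?_
      change volume.real _ ≤ _
      linarith
    have v2 : volume Bd ≤ ENNReal.ofReal (ε / 4 * T) := by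
      have hf : volume Bd ≠ ⊤ := by
        refine ne_top_of_le_ne_top ?_ (measure_mono hBdsub)
        rw [Real.volume_Icc]; exact ENNReal.ofReal_ne_top
      rw [← ENNReal.ofReal_toReal hf]
      exact ENNReal.ofReal_le_ofReal hBdv
    have v3 := hAv J hJa hJb
    have v4 := hAv (J + 1) hJc hJd
    have hp : 0 ≤ ε / 4 * T := by positivity
    calc volume ((Set.Icc T (2 * T) \ E) ∪ Bd ∪ (A J ∪ A (J + 1))) ≤
        (volume (Set.Icc T (2 * T) \ E) + volume Bd) + (volume (A J) + volume (A (J + 1))) :=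
          (measure_union_le _ _).trans (add_le_add (measure_union_le _ _) (measure_union_le _ _))
      _ ≤ (ENNReal.ofReal (ε / 4 * T) + ENNReal.ofReal (ε / 4 * T)) +
          (ENNReal.ofReal (ε / 4 * T) + ENNReal.ofReal (ε / 4 * T)) := by gcongr
      _ = ENNReal.ofReal (ε * T) := by
          rw [← ENNReal.ofReal_add hp hp, ← ENNReal.ofReal_add (by positivity) (by positivity)]
          congr 1; ring
  · intro t ht htX
    simp only [Set.mem_union, Set.mem_sdiff, not_or, not_and, not_not] at htX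
    obtain ⟨⟨htE, htB⟩, htA, htA'⟩ := htX
    have htE' := htE ht
    -- index of t
    obtain ⟨j, hj, hj1, hj2⟩ : ∃ j : ℕ, (t ∉ A j) ∧ (2:ℝ) ^ j ≤ t ∧ t < (2:ℝ) ^ (j + 1) := by
      by_cases hlt : t < (2:ℝ) ^ (J + 1)
      · exact ⟨J, htA, hJ1.trans ht.1, hlt⟩
      · push Not at hlt
        refine ⟨J + 1, htA', hlt, ?_⟩
        have : (2:ℝ) ^ (J + 1 + 1) = 2 * (2:ℝ) ^ (J + 1) := by rw [pow_succ _ (J + 1)]; ring
        rw [this]
        linarith [ht.2]
    obtain ⟨hz, hloc⟩ := hE j t htE' hj1 hj2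
    refine ⟨hz, fun u hu => ?_⟩
    have h5 : ‖Py (2 ^ (δ * j)) t - Px T t‖ ≤ η * S := by
      by_contra hcon
      push Not at hcon
      exact hj ⟨ht, hcon⟩
    have h6 := hBd t ht htB u (by rw [one_div] at hu ⊢; exact hu)
    have h7 : |(Py (2 ^ (δ * j)) t).re - (Px T t).re| ≤ η * S := by
      rw [← Complex.sub_re]
      exact (Complex.abs_re_le_norm _).trans h5
    have h8 : |(Px T (t + u)).re - (Px T t).re| ≤ 1 := by
      rw [← Complex.sub_re]
      exact (Complex.abs_re_le_norm _).trans h6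
    have h9 := abs_le.mp hloc
    have h10 := abs_le.mp h7
    have h11 := abs_le.mp h8
    rw [abs_le]
    constructor <;> linarith [h9.1, h9.2, h10.1, h10.2, h11.1, h11.2]

end Pool.Agent.Y141.SW
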