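import Mathlib

set_option autoImplicit false

/-! Upper bound for `log |f|` near an isolated simple zero, from the mean of `|log |f||` over a disc
(helper141, for the SW project of helper745; compare Pool/Agent/W354/ZP/Disc.lean). -/

namespace Pool.Agent.Y141.SW

open MeasureTheory Filter Topology Set Metric Real

/-- the circle inequality -/
lemma circle_le {f : ℂ → ℂ} {U : Set ℂ} (hU : IsOpen U) (hf : DifferentiableOn ℂ f U) {ρ : ℂ} {R : ℝ}
    (hR : 0 < R) (hball : closedBall ρ R ⊆ U) (h0 : f ρ = 0) (h1 : deriv f ρ ≠ 0)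
    (hne : ∀ z ∈ closedBall ρ R, z ≠ ρ → f z ≠ 0) {z : ℂ} (hz : z ∈ closedBall ρ (R / 2)) :
    ENNReal.ofReal (2 * π / 3 * Real.log ‖f z‖) ≤
      ∫⁻ θ in Ioo (-π) π, ENNReal.ofReal |Real.log ‖f (circleMap ρ R θ)‖| := by
  have hpi := Real.pi_pos
  rcases eq_or_ne z ρ with hzρ | hzρ
  · rw [hzρ, h0, norm_zero, Real.log_zero, mul_zero, ENNReal.ofReal_zero]
    exact zero_le
  have hρU : ρ ∈ U := hball (mem_closedBall_self hR.le)
  set g : ℂ → ℂ := dslope f ρ with hg
  have hgU : DifferentiableOn ℂ g U := (Complex.differentiableOn_dslope (hU.mem_nhds hρU)).mpr hf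
  have hga : AnalyticOnNhd ℂ g (closedBall ρ R) := (hgU.analyticOnNhd hU).mono hball
  have hgρ : g ρ = deriv f ρ := dslope_same _ _
  have hfz : ∀ z, z ≠ ρ → f z = (z - ρ) * g z := by
    intro z hz
    rw [hg, dslope_of_ne _ hz, slope_def_field, h0, sub_zero]
    field_simp [sub_ne_zero.mpr hz]
  have hgne : ∀ z ∈ closedBall ρ R, g z ≠ 0 := by
    intro z hz
    rcases eq_or_ne z ρ with h | h
    · rw [h, hgρ]; exact h1
    · intro h2
      exact hne z hz h (by rw [hfz z h, h2, mul_zero])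
  -- on the circle
  have hcirc : ∀ θ : ℝ, Real.log ‖f (circleMap ρ R θ)‖ = Real.log R + Real.log ‖g (circleMap ρ R θ)‖ := by
    intro θ
    have h2 : circleMap ρ R θ ≠ ρ := circleMap_ne_center hR.ne'
    have h3 : ‖circleMap ρ R θ - ρ‖ = R := by
      rw [circleMap_sub_center, norm_circleMap_zero, abs_of_pos hR]
    have h4 : g (circleMap ρ R θ) ≠ 0 := hgne _ (by
      rw [mem_closedBall, dist_eq_norm, h3])
    rw [hfz _ h2, norm_mul, h3, Real.log_mul hR.ne' (norm_ne_zero_iff.mpr h4)]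
  have hgc : Continuous fun θ : ℝ => Real.log ‖g (circleMap ρ R θ)‖ := by
    rw [continuous_iff_continuousAt]
    intro θ
    have hmem : circleMap ρ R θ ∈ closedBall ρ R := circleMap_mem_closedBall ρ hR.le θ
    have h2 : ContinuousAt g (circleMap ρ R θ) := (hga _ hmem).continuousAt
    have h3 : ContinuousAt (fun θ : ℝ => g (circleMap ρ R θ)) θ :=
      ContinuousAt.comp (f := fun θ : ℝ => circleMap ρ R θ) h2 (continuous_circleMap ρ R).continuousAt
    exact h3.norm.log (norm_ne_zero_iff.mpr (hgne _ hmem))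
  have hfc : Continuous fun θ : ℝ => Real.log ‖f (circleMap ρ R θ)‖ := by
    simp_rw [hcirc]
    exact continuous_const.add hgc
  -- the Poisson formula
  have hzR : ‖z - ρ‖ ≤ R / 2 := by rwa [mem_closedBall, dist_eq_norm] at hz
  have hzball : z ∈ ball ρ R := by
    rw [mem_ball, dist_eq_norm]; linarith
  have hzcb : z ∈ closedBall ρ R := ball_subset_closedBall hzball
  set P : ℝ → ℝ := fun θ => poissonKernel ρ z (circleMap ρ R θ) with hP
  have hden : ∀ θ : ℝ, R / 2 ≤ ‖(circleMap ρ R θ - ρ) - (z - ρ)‖ := by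
    intro θ
    have h3 : ‖circleMap ρ R θ - ρ‖ = R := by
      rw [circleMap_sub_center, norm_circleMap_zero, abs_of_pos hR]
    have := norm_sub_norm_le (circleMap ρ R θ - ρ) (z - ρ)
    linarith
  have hPval : ∀ θ, P θ = (R ^ 2 - ‖z - ρ‖ ^ 2) / ‖(circleMap ρ R θ - ρ) - (z - ρ)‖ ^ 2 := by
    intro θ
    rw [hP]
    simp only
    rw [poissonKernel_def, circleMap_sub_center, norm_circleMap_zero, abs_of_pos hR]
  have hP0 : ∀ θ, 0 ≤ P θ := by
    intro θ
    rw [hPval]
    apply div_nonneg _ (sq_nonneg _)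
    nlinarith [norm_nonneg (z - ρ)]
  have hP3 : ∀ θ, P θ ≤ 3 := by
    intro θ
    rw [hPval]
    have h3 : R - ‖z - ρ‖ ≤ ‖(circleMap ρ R θ - ρ) - (z - ρ)‖ := by
      have h3 : ‖circleMap ρ R θ - ρ‖ = R := by
        rw [circleMap_sub_center, norm_circleMap_zero, abs_of_pos hR]
      have := norm_sub_norm_le (circleMap ρ R θ - ρ) (z - ρ)
      linarith
    have h4 : 0 < R - ‖z - ρ‖ := by linarith
    have h5 : (R - ‖z - ρ‖) ^ 2 ≤ ‖(circleMap ρ R θ - ρ) - (z - ρ)‖ ^ 2 := by gcongr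
    rw [div_le_iff₀ (by nlinarith)]
    nlinarith [norm_nonneg (z - ρ)]
  have hPc : Continuous P := by
    have : P = fun θ => (R ^ 2 - ‖z - ρ‖ ^ 2) / ‖(circleMap ρ R θ - ρ) - (z - ρ)‖ ^ 2 := funext hPval
    rw [this]
    refine Continuous.div continuous_const ?_ fun θ => ?_
    · have := continuous_circleMap ρ R
      fun_prop
    · have h := hden θ
      have h' : 0 < ‖(circleMap ρ R θ - ρ) - (z - ρ)‖ := by linarith
      positivity
  have hharm : InnerProductSpace.HarmonicOnNhd (fun w => Real.log ‖g w‖) (closedBall ρ R) :=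
    fun w hw => (hga w hw).harmonicAt_log_norm (hgne w hw)
  have hharm1 : InnerProductSpace.HarmonicOnNhd (fun _ : ℂ => (1 : ℝ)) (closedBall ρ R) :=
    fun w hw => InnerProductSpace.harmonicAt_const (1 : ℝ)
  have hpois := hharm.circleAverage_poissonKernel_smul hzball
  have hpois1 := hharm1.circleAverage_poissonKernel_smul hzball
  rw [Real.circleAverage_def] at hpois hpois1
  simp only [Pi.smul_apply', smul_eq_mul, mul_one] at hpois hpois1
  have hi1 : IntervalIntegrable P volume 0 (2 * π) := hPc.intervalIntegrable _ _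
  have hi2 : IntervalIntegrable (fun θ => P θ * Real.log ‖g (circleMap ρ R θ)‖) volume 0 (2 * π) :=
    (hPc.mul hgc).intervalIntegrable _ _
  have hi3 : IntervalIntegrable (fun θ => P θ * Real.log ‖f (circleMap ρ R θ)‖) volume 0 (2 * π) :=
    (hPc.mul hfc).intervalIntegrable _ _
  have hmain : Real.log ‖g z‖ + Real.log R =
      (2 * π)⁻¹ * ∫ θ in (0:ℝ)..2 * π, P θ * Real.log ‖f (circleMap ρ R θ)‖ := by
    have e1 : (∫ θ in (0:ℝ)..2 * π, P θ * Real.log ‖f (circleMap ρ R θ)‖) =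
        Real.log R * (∫ θ in (0:ℝ)..2 * π, P θ) +
          ∫ θ in (0:ℝ)..2 * π, P θ * Real.log ‖g (circleMap ρ R θ)‖ := by
      rw [← intervalIntegral.integral_const_mul, ← intervalIntegral.integral_add (hi1.const_mul _) hi2]
      apply intervalIntegral.integral_congr
      intro θ _
      simp only
      rw [hcirc]
      ring
    rw [e1, mul_add, ← hpois]
    have e2 : (2 * π)⁻¹ * (Real.log R * ∫ θ in (0:ℝ)..2 * π, P θ) =
        Real.log R * ((2 * π)⁻¹ * ∫ θ in (0:ℝ)..2 * π, P θ) := by ring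
    rw [e2, hpois1]
    ring
  have hup : (∫ θ in (0:ℝ)..2 * π, P θ * Real.log ‖f (circleMap ρ R θ)‖) ≤
      3 * ∫ θ in (0:ℝ)..2 * π, |Real.log ‖f (circleMap ρ R θ)‖| := by
    rw [← intervalIntegral.integral_const_mul]
    apply intervalIntegral.integral_mono_on (by positivity) hi3
      ((hfc.abs.intervalIntegrable _ _).const_mul _)
    intro θ _
    have h2 := le_abs_self (Real.log ‖f (circleMap ρ R θ)‖)
    have h3 := abs_nonneg (Real.log ‖f (circleMap ρ R θ)‖)
    nlinarith [hP0 θ, hP3 θ]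
  have hshift : (∫ θ in (0:ℝ)..2 * π, |Real.log ‖f (circleMap ρ R θ)‖|) =
      ∫ θ in (-π)..π, |Real.log ‖f (circleMap ρ R θ)‖| := by
    have hper : Function.Periodic (fun θ => |Real.log ‖f (circleMap ρ R θ)‖|) (2 * π) := by
      intro θ
      simp only
      rw [periodic_circleMap ρ R θ]
    have := hper.intervalIntegral_add_eq 0 (-π)
    rw [zero_add] at this
    rw [this]
    congr 1
    ring
  have hlogz : Real.log ‖f z‖ ≤ Real.log ‖g z‖ + Real.log R := by
    rw [hfz z hzρ, norm_mul, Real.log_mul (norm_ne_zero_iff.mpr (sub_ne_zero.mpr hzρ))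
      (norm_ne_zero_iff.mpr (hgne z hzcb))]
    have h2 : Real.log ‖z - ρ‖ ≤ Real.log R :=
      Real.log_le_log (norm_pos_iff.mpr (sub_ne_zero.mpr hzρ)) (by linarith)
    linarith
  have h5 : 2 * π / 3 * Real.log ‖f z‖ ≤ ∫ θ in (-π)..π, |Real.log ‖f (circleMap ρ R θ)‖| := by
    have h6 : Real.log ‖f z‖ ≤ (2 * π)⁻¹ * (3 * ∫ θ in (-π)..π, |Real.log ‖f (circleMap ρ R θ)‖|) := by
      rw [← hshift]
      refine hlogz.trans ?_
      rw [hmain]
      gcongr
    calc 2 * π / 3 * Real.log ‖f z‖ ≤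
        2 * π / 3 * ((2 * π)⁻¹ * (3 * ∫ θ in (-π)..π, |Real.log ‖f (circleMap ρ R θ)‖|)) := by gcongr
      _ = _ := by field_simp
  refine (ENNReal.ofReal_le_ofReal h5).trans (le_of_eq ?_)
  rw [intervalIntegral.integral_of_le (by linarith), integral_Ioc_eq_integral_Ioo,
    ofReal_integral_eq_lintegral_ofReal]
  · exact (hfc.abs.integrableOn_Icc (a := -π) (b := π)).mono_set Ioo_subset_Icc_self
  · exact Eventually.of_forall fun t => abs_nonneg _

/-- the disc inequality -/
theorem disc_le {f : ℂ → ℂ} {U : Set ℂ} (hU : IsOpen U) (hf : DifferentiableOn ℂ f U) (hfm : Measurable f)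
    {ρ : ℂ} {δ : ℝ} (hδ : 0 < δ) (hball : closedBall ρ δ ⊆ U) (h0 : f ρ = 0) (h1 : deriv f ρ ≠ 0)
    (hne : ∀ z ∈ closedBall ρ δ, z ≠ ρ → f z ≠ 0) {z : ℂ} (hz : z ∈ closedBall ρ (δ / 4)) :
    ENNReal.ofReal (δ ^ 2 / 2 * Real.log ‖f z‖) ≤
      ∫⁻ w in ball ρ δ, ENNReal.ofReal |Real.log ‖f w‖| := by
  have hpi := Real.pi_pos
  have hpi3 := Real.pi_gt_three
  set X : ℝ := Real.log ‖f z‖ with hX
  by_cases hX0 : X ≤ 0
  · rw [ENNReal.ofReal_of_nonpos (mul_nonpos_of_nonneg_of_nonpos (by positivity) hX0)]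
    exact zero_le
  push Not at hX0
  set F : ℂ → ENNReal := fun z => ENNReal.ofReal |Real.log ‖f z‖| with hF
  have hFm : Measurable F := by
    rw [hF]
    have := hfm.norm
    fun_prop
  -- polar coordinates
  have hpol : ∫⁻ z in ball ρ δ, F z =
      ∫⁻ p in polarCoord.target, ENNReal.ofReal p.1 *
        (ball ρ δ).indicator F (ρ + Complex.polarCoord.symm p) := by
    rw [← lintegral_indicator measurableSet_ball, ← lintegral_add_left_eq_self _ ρ]
    exact (Complex.lintegral_comp_polarCoord_symm fun z => (ball ρ δ).indicator F (ρ + z)).symm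
  have hsub : Ioo (δ / 2) δ ×ˢ Ioo (-π) π ⊆ polarCoord.target := by
    rintro ⟨r, θ⟩ ⟨hr, hθ⟩
    exact ⟨by
      have : δ / 2 < r := hr.1
      show (0:ℝ) < r
      linarith, hθ⟩
  have hcm : ∀ r θ : ℝ, ρ + Complex.polarCoord.symm (r, θ) = circleMap ρ r θ := by
    intro r θ
    rw [Complex.polarCoord_symm_apply, circleMap, Complex.exp_mul_I]
    push_cast
    rfl
  have hmeas : Measurable fun p : ℝ × ℝ => ENNReal.ofReal p.1 * F (circleMap ρ p.1 p.2) := by
    refine (measurable_fst.ennreal_ofReal).mul (hFm.comp ?_)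
    have : Continuous fun p : ℝ × ℝ => circleMap ρ p.1 p.2 := by
      unfold circleMap
      fun_prop
    exact this.measurable
  have hlow : ∫⁻ r in Ioo (δ / 2) δ, ∫⁻ θ in Ioo (-π) π, ENNReal.ofReal r * F (circleMap ρ r θ) ≤
      ∫⁻ z in ball ρ δ, F z := by
    rw [hpol]
    calc ∫⁻ r in Ioo (δ / 2) δ, ∫⁻ θ in Ioo (-π) π, ENNReal.ofReal r * F (circleMap ρ r θ) =
        ∫⁻ p in Ioo (δ / 2) δ ×ˢ Ioo (-π) π, ENNReal.ofReal p.1 * F (circleMap ρ p.1 p.2) := by
          rw [Measure.volume_eq_prod, ← Measure.prod_restrict, lintegral_prod _ hmeas.aemeasurable]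
      _ = ∫⁻ p in Ioo (δ / 2) δ ×ˢ Ioo (-π) π, ENNReal.ofReal p.1 *
          (ball ρ δ).indicator F (ρ + Complex.polarCoord.symm p) := by
          refine setLIntegral_congr_fun (measurableSet_Ioo.prod measurableSet_Ioo) ?_
          rintro ⟨r, θ⟩ ⟨hr, hθ⟩
          simp only at hr hθ ⊢
          rw [hcm, indicator_of_mem]
          rw [mem_ball, dist_eq_norm, circleMap_sub_center, norm_circleMap_zero,
            abs_of_pos (by linarith [hr.1])]
          exact hr.2
      _ ≤ _ := lintegral_mono_set hsub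
  have hinner : ∀ r ∈ Ioo (δ / 2) δ, ENNReal.ofReal (δ / 2 * (2 * π / 3 * X)) ≤
      ∫⁻ θ in Ioo (-π) π, ENNReal.ofReal r * F (circleMap ρ r θ) := by
    intro r hr
    have hr0 : 0 < r := by linarith [hr.1]
    rw [lintegral_const_mul' _ _ ENNReal.ofReal_ne_top]
    have hsb : closedBall ρ r ⊆ closedBall ρ δ := closedBall_subset_closedBall hr.2.le
    have h2 := circle_le hU hf hr0 (hsb.trans hball) h0 h1 (fun z hz hzne => hne z (hsb hz) hzne)
      (z := z) (closedBall_subset_closedBall (by linarith [hr.1]) hz)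
    refine le_trans ?_ (mul_le_mul' le_rfl h2)
    rw [← ENNReal.ofReal_mul hr0.le]
    refine ENNReal.ofReal_le_ofReal ?_
    gcongr
    exact hr.1.le
  have hmain : ENNReal.ofReal (δ / 2 * (2 * π / 3 * X)) * ENNReal.ofReal (δ / 2) ≤
      ∫⁻ z in ball ρ δ, F z := by
    refine le_trans ?_ hlow
    calc ENNReal.ofReal (δ / 2 * (2 * π / 3 * X)) * ENNReal.ofReal (δ / 2) =
        ∫⁻ _ in Ioo (δ / 2) δ, ENNReal.ofReal (δ / 2 * (2 * π / 3 * X)) := by
          rw [setLIntegral_const, Real.volume_Ioo]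
          congr 2; ring
      _ ≤ _ := setLIntegral_mono' measurableSet_Ioo fun r hr => hinner r hr
  rw [← ENNReal.ofReal_mul' (by positivity)] at hmain
  refine le_trans (ENNReal.ofReal_le_ofReal ?_) hmain
  have e : δ / 2 * (2 * π / 3 * X) * (δ / 2) = δ ^ 2 * X * (π / 6) := by ring
  rw [e]
  have : 0 < δ ^ 2 * X := by positivity
  nlinarith

end Pool.Agent.Y141.SW
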