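import Pool.Agent.Y745.SW.DefsB
import Pool.Agent.W354.ZP.Disc
import Pool.Agent.Y141.SW.Pois
import Pool.Agent.Y141.SW.Exc

set_option autoImplicit false

/-! The derivative at almost all isolated zeros (helper141, for the SW project of helper745). -/

namespace Pool.Agent.Y141.SW

open MeasureTheory Filter Topology Set Metric Pool.Agent.Y745.SW H370

/-- area integrals near the critical line -/
def P_AR : Prop := ∃ C : ℝ, 0 < C ∧ ∀ᶠ T : ℝ in atTop, ∀ R : ℝ, 1 / T ≤ R → R ≤ 1 / Real.log T →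
  ∫⁻ z in {z : ℂ | z.re ∈ Ioo (1 / 2 - R) (1 / 2 + R) ∧ z.im ∈ Ioo 0 (2 * T)},
    ENNReal.ofReal |Real.log ‖riemannZeta z‖| ≤
      ENNReal.ofReal (C * (Real.sqrt (Real.log (Real.log T)) * (T * R)))

lemma deriv_ne_of_simple {s : ℂ} (hs : s ≠ 1) (h0 : riemannZeta s = 0)
    (h1 : H370.mult riemannZeta s = 1) : deriv riemannZeta s ≠ 0 := by
  have hd : DifferentiableOn ℂ riemannZeta ({1}ᶜ : Set ℂ) := fun z hz =>
    (differentiableAt_riemannZeta hz).differentiableWithinAt
  have ha : AnalyticAt ℂ riemannZeta s := hd.analyticAt (isOpen_compl_singleton.mem_nhds hs)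
  unfold H370.mult at h1
  have h2 : analyticOrderAt riemannZeta s = 1 := by
    unfold analyticOrderNatAt at h1
    have h3 : analyticOrderAt riemannZeta s ≠ ⊤ := by
      intro h4; rw [h4] at h1; simp at h1
    rw [← ENat.natCast_toNat h3, h1]; rfl
  have h3 := ha.analyticOrderAt_deriv_add_one
  simp only [h0, sub_zero] at h3
  rw [h2] at h3
  have h4 : analyticOrderAt (deriv riemannZeta) s = 0 := by
    revert h3
    generalize analyticOrderAt (deriv riemannZeta) s = x
    intro h3
    cases x with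
    | top => simp at h3
    | coe n =>
      have h6 : n + 1 = 1 := by exact_mod_cast h3
      have h7 : n = 0 := by omega
      rw [h7]; rfl
  exact ha.deriv.analyticOrderAt_eq_zero.mp h4

/-- the estimate at one zero -/
lemma one_zero {C θ K S L δ W η T : ℝ} (hzm : Measurable riemannZeta) (hC : 1 ≤ C) (hθ : 0 < θ)
    (hθ1 : θ ≤ 1 / 4) (hCθ : C * θ ≤ 1 / 2) (hK : 0 < K) (hS : 1 ≤ S) (hL : 1 ≤ L) (hLT : L = Real.log T)
    (hδ : 0 < δ) (hδ1 : δ ≤ 1 / 10)
    (hH : ∀ (f : ℂ → ℂ) (ρ s1 : ℂ) (r M θ : ℝ), 0 < r → 0 < θ → θ ≤ 1 / 4 →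
      AnalyticOnNhd ℂ f (Metric.closedBall ρ r) → f ρ = 0 → deriv f ρ ≠ 0 →
      (∀ z ∈ Metric.closedBall ρ r, z ≠ ρ → f z ≠ 0) → (∀ z ∈ Metric.closedBall ρ r, ‖f z‖ ≤ Real.exp M) →
      s1 ≠ ρ → ‖s1 - ρ‖ ≤ θ * r →
        |Real.log ‖deriv f ρ‖ - (Real.log ‖f s1‖ - Real.log ‖s1 - ρ‖)| ≤
          C * θ * (M - Real.log r - (Real.log ‖f s1‖ - Real.log ‖s1 - ρ‖)))
    {s : ℂ} (hs0 : riemannZeta s = 0) (hsre : s.re = 1 / 2) (hsim : 2 ≤ s.im)
    (hsd : deriv riemannZeta s ≠ 0)
    (hne : ∀ z ∈ closedBall s (δ / (2 * L)), z ≠ s → riemannZeta z ≠ 0)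
    (hA : ∫⁻ w in ball s (δ / (2 * L)), ENNReal.ofReal |Real.log ‖riemannZeta w‖| ≤
      ENNReal.ofReal (K * S * (δ / (2 * L)) ^ 2 / 2))
    {t : ℝ} (ht1 : s.im + θ * (δ / (2 * L) / 4) / 2 ≤ t) (ht2 : t ≤ s.im + θ * (δ / (2 * L) / 4))
    (hloc : ∀ u : ℝ, |u| ≤ 1 / L → |Real.log ‖riemannZeta (1 / 2 + t * Complex.I)‖ -
          (Px T (t + u)).re| ≤ W + η * S) :
    |Real.log ‖deriv riemannZeta s‖ - Real.log L - (Px T s.im).re| ≤
      C * θ * (3 * K + 8) * S + W + η * S + |Real.log (θ * δ / 16)| := by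
  set R : ℝ := δ / (2 * L) with hR
  have hR0 : 0 < R := by positivity
  have hR1 : R ≤ 1 / 20 := by
    rw [hR, div_le_div_iff₀ (by positivity) (by norm_num)]
    nlinarith
  have hU : closedBall s R ⊆ ({1}ᶜ : Set ℂ) := by
    intro z hz
    rw [mem_closedBall, dist_eq_norm] at hz
    rw [mem_compl_iff, mem_singleton_iff]
    rintro rfl
    have h2 := (Complex.abs_im_le_norm (1 - s)).trans hz
    rw [Complex.sub_im, Complex.one_im, zero_sub, abs_neg, abs_of_pos (by linarith)] at h2
    linarith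
  have hd : DifferentiableOn ℂ riemannZeta ({1}ᶜ : Set ℂ) := fun z hz =>
    (differentiableAt_riemannZeta hz).differentiableWithinAt
  -- upper bound on the small disc
  have hup : ∀ z ∈ closedBall s (R / 4), ‖riemannZeta z‖ ≤ Real.exp (K * S) := by
    intro z hz
    by_cases h0 : riemannZeta z = 0
    · rw [h0, norm_zero]; positivity
    have h2 := (disc_le isOpen_compl_singleton hd hzm hR0 hU hs0 hsd hne hz).trans hA
    rw [ENNReal.ofReal_le_ofReal_iff (by positivity)] at h2
    have h3 : Real.log ‖riemannZeta z‖ ≤ K * S := by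
      have h4 : R ^ 2 / 2 * Real.log ‖riemannZeta z‖ ≤ R ^ 2 / 2 * (K * S) := by linarith
      exact le_of_mul_le_mul_left h4 (by positivity)
    calc ‖riemannZeta z‖ = Real.exp (Real.log ‖riemannZeta z‖) := by
          rw [Real.exp_log (norm_pos_iff.mpr h0)]
      _ ≤ _ := Real.exp_le_exp.mpr h3
  -- lower bound for the derivative
  have hlow : |Real.log ‖deriv riemannZeta s‖ + Real.log R| ≤ K * S / 2 + 2 := by
    have h2 := Pool.Agent.W354.ZP.disc_ge isOpen_compl_singleton hd hzm hR0 hU hs0 hsd hne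
    have h3 := h2.trans (add_le_add hA le_rfl)
    rw [← ENNReal.ofReal_add (by positivity) (by positivity),
      ENNReal.ofReal_le_ofReal_iff (by positivity)] at h3
    have h4 : R ^ 2 * |Real.log ‖deriv riemannZeta s‖ + Real.log R| ≤ R ^ 2 * (K * S / 2 + 2) := by
      linarith
    exact le_of_mul_le_mul_left h4 (by positivity)
  set s1 : ℂ := 1 / 2 + t * Complex.I with hs1
  have hs1s : s1 - s = ((t - s.im : ℝ) : ℂ) * Complex.I := by
    apply Complex.ext
    · simp [hs1, hsre]
    · simp [hs1]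
  have htp : 0 < t - s.im := by
    have : 0 < θ * (R / 4) / 2 := by positivity
    linarith
  have hnorm : ‖s1 - s‖ = t - s.im := by
    rw [hs1s, norm_mul, Complex.norm_I, mul_one, Complex.norm_real, Real.norm_of_nonneg htp.le]
  have hs1ne : s1 ≠ s := by
    intro h
    rw [h, sub_self, norm_zero] at hnorm
    linarith
  have hsb : closedBall s (R / 4) ⊆ closedBall s R := closedBall_subset_closedBall (by linarith)
  have hhar := hH riemannZeta s s1 (R / 4) (K * S) θ (by positivity) hθ hθ1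
    ((hd.analyticOnNhd isOpen_compl_singleton).mono (hsb.trans hU)) hs0 hsd
    (fun z hz hzs => hne z (hsb hz) hzs) hup hs1ne (by rw [hnorm]; linarith)
  rw [hnorm] at hhar
  set A := Real.log ‖deriv riemannZeta s‖ with hAd
  set B := Real.log ‖riemannZeta s1‖ - Real.log (t - s.im) with hBd
  have hlogR4 : Real.log (R / 4) = Real.log R - Real.log 4 := Real.log_div hR0.ne' (by norm_num)
  have hlog4 : Real.log 4 ≤ 2 := by
    have := Real.log_le_sub_one_of_pos (show (0:ℝ) < 4 by norm_num)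
    have h2 : Real.log 4 = 2 * Real.log 2 := by
      rw [show (4:ℝ) = 2 ^ 2 by norm_num, Real.log_pow]; norm_num
    have := Real.log_two_lt_d9
    linarith
  have hA1 : K * S - Real.log (R / 4) - A ≤ 3 / 2 * (K * S) + 4 := by
    have := (abs_le.mp hlow).1
    rw [hlogR4]
    linarith
  have hB1 : K * S - Real.log (R / 4) - B ≤ 3 * (K * S) + 8 := by
    have h2 : K * S - Real.log (R / 4) - B ≤ (K * S - Real.log (R / 4) - A) +
        C * θ * (K * S - Real.log (R / 4) - B) := by
      have := (abs_le.mp hhar).2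
      linarith
    by_cases h3 : 0 ≤ K * S - Real.log (R / 4) - B
    · have h4 : C * θ * (K * S - Real.log (R / 4) - B) ≤ 1 / 2 * (K * S - Real.log (R / 4) - B) := by
        gcongr
      linarith
    · have : 0 < K * S := by positivity
      linarith
  have hAB : |A - B| ≤ C * θ * (3 * K + 8) * S := by
    refine hhar.trans ?_
    have h2 : 3 * (K * S) + 8 ≤ (3 * K + 8) * S := by nlinarith
    calc C * θ * (K * S - Real.log (R / 4) - B) ≤ C * θ * ((3 * K + 8) * S) := by
          gcongr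
          linarith
      _ = _ := by ring
  -- the value at s1
  have hloc1 := hloc (s.im - t) (by
    rw [abs_sub_comm, abs_of_pos htp, le_div_iff₀ (by linarith)]
    have h2 : t - s.im ≤ θ * (R / 4) := by linarith
    have h3 : R * L = δ / 2 := by rw [hR]; field_simp
    have h4 : (t - s.im) * L ≤ θ * (R / 4) * L := by gcongr
    nlinarith)
  rw [show t + (s.im - t) = s.im by ring] at hloc1
  -- the distance
  have hdist : |(-Real.log (t - s.im)) - Real.log L| ≤ |Real.log (θ * δ / 16)| := by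
    have h2 : -Real.log (t - s.im) - Real.log L = -Real.log ((t - s.im) * L) := by
      rw [Real.log_mul htp.ne' (by linarith)]; ring
    have h3 : R * L = δ / 2 := by rw [hR]; field_simp
    have h4 : θ * δ / 16 ≤ (t - s.im) * L := by
      calc θ * δ / 16 = θ * (R * L / 4) / 2 := by rw [h3]; ring
        _ = (θ * (R / 4) / 2) * L := by ring
        _ ≤ _ := by gcongr; linarith
    have h5 : (t - s.im) * L ≤ 1 := by
      have h6 : (t - s.im) * L ≤ (θ * (R / 4)) * L := by gcongr; linarith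
      have h7 : (θ * (R / 4)) * L = θ * δ / 8 := by
        calc (θ * (R / 4)) * L = θ * (R * L) / 4 := by ring
          _ = _ := by rw [h3]; ring
      nlinarith
    have h6 : 0 < θ * δ / 16 := by positivity
    rw [h2, abs_neg, abs_of_nonpos (Real.log_nonpos (by positivity) h5),
      abs_of_nonpos (Real.log_nonpos h6.le (h4.trans h5))]
    have := Real.log_le_log h6 h4
    linarith
  have e1 := abs_le.mp hAB
  have e2 := abs_le.mp hloc1
  have e3 := abs_le.mp hdist
  rw [abs_le]
  constructor <;> linarith [e1.1, e1.2, e2.1, e2.2, e3.1, e3.2]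

lemma alg1 {x CA ε L : ℝ} (hε : 0 < ε) (hL : 0 < L) :
    x * (4 * CA / (ε * L)) = (x / (ε / 2 * L)) * (2 * CA) := by
  field_simp
  ring

lemma alg2 {CA ε L δ : ℝ} (hε : 0 < ε) (hL : 0 < L) (hδ : 0 < δ) :
    8 * CA / (δ * ε) * (δ / (2 * L)) = 4 * CA / (ε * L) := by
  field_simp
  ring

lemma alg3 {θ L δ : ℝ} (hL : 0 < L) : θ * (δ / (2 * L) / 4) / 2 = θ * δ / (16 * L) := by
  field_simp
  ring

lemma alg4 {x θ L δ : ℝ} (hL : 0 < L) : x * (θ * δ / (16 * L)) = (x / L) * (θ * δ / 16) := by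
  field_simp

theorem der_of (hG : GoodL riemannZeta) (hzm : Measurable riemannZeta) (hLL : P_LL) (hAR : P_AR) :
    P_HAR → P_BV → P_DX → P_DER := by
  classical
  intro hHAR hBV hDX δ ε hδ hδ1 hε
  obtain ⟨C, hC1, hH⟩ := hHAR
  obtain ⟨CA, hCA, hA⟩ := hAR
  set K : ℝ := 8 * CA / (δ * ε) with hK
  have hK0 : 0 < K := by positivity
  set θ : ℝ := min (1 / 4) (min (1 / (2 * C)) (ε / (4 * C * (3 * K + 8)))) with hθ
  have hC0 : 0 < C := by linarith
  have hθ0 : 0 < θ := by
    rw [hθ]
    refine lt_min (by norm_num) (lt_min (by positivity) (by positivity))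
  have hθ4 : θ ≤ 1 / 4 := min_le_left _ _
  have hCθ : C * θ ≤ 1 / 2 := by
    have h1 : θ ≤ 1 / (2 * C) := (min_le_right _ _).trans (min_le_left _ _)
    calc C * θ ≤ C * (1 / (2 * C)) := by gcongr
      _ = 1 / 2 := by field_simp
  have hCθ2 : C * θ * (3 * K + 8) ≤ ε / 4 := by
    have h1 : θ ≤ ε / (4 * C * (3 * K + 8)) := (min_le_right _ _).trans (min_le_right _ _)
    calc C * θ * (3 * K + 8) ≤ C * (ε / (4 * C * (3 * K + 8))) * (3 * K + 8) := by gcongr
      _ = ε / 4 := by field_simp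
  obtain ⟨W, hW, hX⟩ := exc hBV hDX hLL (ε / 10) (ε * θ * δ / 32) (by positivity) (by positivity)
  set D : ℝ := W + |Real.log (θ * δ / 16)| with hD
  have hD0 : 0 ≤ D := by positivity
  have hTl : ∀ᶠ T : ℝ in atTop, 2 * Real.log T ≤ T * δ := by
    have h1 := Real.isLittleO_log_id_atTop.bound (show (0:ℝ) < δ / 2 by positivity)
    filter_upwards [h1, eventually_ge_atTop (1:ℝ)] with T h2 h3
    simp only [id, Real.norm_eq_abs] at h2
    rw [abs_of_nonneg (Real.log_nonneg h3), abs_of_nonneg (by linarith)] at h2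
    linarith
  filter_upwards [hA, hX, tendsto_S.eventually_ge_atTop (max 1 (2 * D / ε)), hTl,
    Real.tendsto_log_atTop.eventually_ge_atTop 1, eventually_ge_atTop (100 : ℝ)]
    with T hAT hXT hST hTδ hL1 hT100
  intro U1 U2 hU1 hU1' hU2 hU2'
  set L := Real.log T with hL
  set S := Real.sqrt (Real.log (Real.log T)) with hS
  have hT0 : 0 < T := by linarith
  have hL0 : 0 < L := by linarith
  have hS1 : 1 ≤ S := (le_max_left _ _).trans hST
  have hSD : D ≤ ε / 2 * S := by
    have h1 : 2 * D / ε ≤ S := (le_max_right _ _).trans hST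
    rw [div_le_iff₀ hε] at h1
    linarith
  obtain ⟨X, hXv, hXs⟩ := hXT
  set R : ℝ := δ / (2 * L) with hR
  have hR0 : 0 < R := by positivity
  have hR1 : R ≤ 1 / 20 := by
    rw [hR, div_le_div_iff₀ (by positivity) (by norm_num)]
    nlinarith
  set F : Finset ℂ := (isoS U1 U2 (δ / L)).filter (fun s => T + 2 ≤ s.im ∧ s.im ≤ 2 * T - 2 ∧
    ε * S < |Real.log ‖deriv riemannZeta s‖ - Real.log L - (Px T s.im).re|) with hF
  -- properties of the elements
  have hU1one : 1 ≤ U1 := by linarith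
  have hmem : ∀ z, z ∈ Zf riemannZeta U1 U2 ↔ z ∈ zset riemannZeta U1 U2 := fun z =>
    mem_Zf hG hU1one
  have hprop : ∀ s ∈ F, s.re = 1 / 2 ∧ mult riemannZeta s = 1 ∧ riemannZeta s = 0 ∧
      (∀ s' ∈ Zf riemannZeta U1 U2, s' ≠ s → δ / L ≤ ‖s - s'‖) ∧ s ∈ Zf riemannZeta U1 U2 ∧
      T + 2 ≤ s.im ∧ s.im ≤ 2 * T - 2 ∧
      ε * S < |Real.log ‖deriv riemannZeta s‖ - Real.log L - (Px T s.im).re| := by
    intro s hs
    rw [hF, Finset.mem_filter] at hs
    obtain ⟨h1, h2, h3, h4⟩ := hs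
    unfold isoS at h1
    rw [Finset.mem_filter] at h1
    obtain ⟨h5, h6, h7, h8⟩ := h1
    exact ⟨h6, h7, ((hmem s).mp h5).2.2.2.2, h8, h5, h2, h3, h4⟩
  have hsep : ∀ s ∈ F, ∀ s' ∈ F, s ≠ s' → δ / L ≤ ‖s - s'‖ := by
    intro s hs s' hs' hne
    exact (hprop s hs).2.2.2.1 s' (hprop s' hs').2.2.2.2.1 hne.symm
  have hsepim : ∀ s ∈ F, ∀ s' ∈ F, s ≠ s' → δ / L ≤ |s.im - s'.im| := by
    intro s hs s' hs' hne
    have h1 := hsep s hs s' hs' hne
    have h2 : s - s' = ((s.im - s'.im : ℝ) : ℂ) * Complex.I := by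
      apply Complex.ext
      · simp [(hprop s hs).1, (hprop s' hs').1]
      · simp
    rw [h2, norm_mul, Complex.norm_I, mul_one, Complex.norm_real, Real.norm_eq_abs] at h1
    exact h1
  have hRL : δ / L = 2 * R := by rw [hR]; field_simp
  clear_value θ K
  have hiso : ∀ s ∈ F, ∀ z ∈ closedBall s R, z ≠ s → riemannZeta z ≠ 0 := by
    intro s hs z hz hzs h0
    obtain ⟨p1, p2, p3, p4, p5, p6, p7, p8⟩ := hprop s hs
    rw [mem_closedBall, dist_eq_norm] at hz
    have h1 := (Complex.abs_re_le_norm (z - s)).trans hz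
    have h2 := (Complex.abs_im_le_norm (z - s)).trans hz
    rw [Complex.sub_re, p1] at h1
    rw [Complex.sub_im] at h2
    have h1' := abs_le.mp h1
    have h2' := abs_le.mp h2
    have h3 : z ∈ Zf riemannZeta U1 U2 := by
      rw [hmem]
      exact ⟨by linarith, by linarith, by linarith, by linarith, h0⟩
    have h4 := p4 z h3 hzs
    rw [norm_sub_rev, hRL] at h4
    linarith
  let A : ℂ → ENNReal := fun s => ∫⁻ w in ball s R, ENNReal.ofReal |Real.log ‖riemannZeta w‖|
  set F2 := F.filter (fun s => ENNReal.ofReal (K * S * R ^ 2 / 2) < A s) with hF2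
  set F1 := F.filter (fun s => ¬ ENNReal.ofReal (K * S * R ^ 2 / 2) < A s) with hF1
  have hcard : F.card = F2.card + F1.card := (Finset.card_filter_add_card_filter_not _).symm
  -- the zeros with large area integral
  have hc2 : (F2.card : ℝ) ≤ ε / 2 * (T * L) := by
    have hdisj : (↑F2 : Set ℂ).PairwiseDisjoint fun s => ball s R := by
      intro s hs s' hs' hne
      have hs := Finset.mem_of_mem_filter s (Finset.mem_coe.mp hs)
      have hs' := Finset.mem_of_mem_filter s' (Finset.mem_coe.mp hs')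
      refine ball_disjoint_ball ?_
      rw [dist_eq_norm]
      have := hsep s hs s' hs' hne
      rw [hRL] at this
      linarith
    have hsub : ∀ s ∈ F2, ball s R ⊆
        {z : ℂ | z.re ∈ Ioo (1 / 2 - R) (1 / 2 + R) ∧ z.im ∈ Ioo 0 (2 * T)} := by
      intro s hs z hz
      obtain ⟨p1, p2, p3, p4, p5, p6, p7, p8⟩ := hprop s (Finset.mem_of_mem_filter s hs)
      rw [mem_ball, dist_eq_norm] at hz
      have h1 := (Complex.abs_re_le_norm (z - s)).trans_lt hz
      have h2 := (Complex.abs_im_le_norm (z - s)).trans_lt hz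
      rw [Complex.sub_re, p1, abs_lt] at h1
      rw [Complex.sub_im, abs_lt] at h2
      exact ⟨⟨by linarith [h1.1], by linarith [h1.2]⟩, ⟨by linarith [h2.1], by linarith [h2.2]⟩⟩
    have h1 : (F2.card : ENNReal) * ENNReal.ofReal (K * S * R ^ 2 / 2) ≤
        ENNReal.ofReal (CA * (S * (T * R))) := by
      calc (F2.card : ENNReal) * ENNReal.ofReal (K * S * R ^ 2 / 2) =
          ∑ _s ∈ F2, ENNReal.ofReal (K * S * R ^ 2 / 2) := by
            rw [Finset.sum_const, nsmul_eq_mul]
        _ ≤ ∑ s ∈ F2, A s := Finset.sum_le_sum fun s hs => (Finset.mem_filter.mp hs).2.le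
        _ = ∫⁻ w in ⋃ s ∈ F2, ball s R, ENNReal.ofReal |Real.log ‖riemannZeta w‖| := by
            rw [lintegral_biUnion_finset hdisj fun s _ => measurableSet_ball]
        _ ≤ ∫⁻ z in {z : ℂ | z.re ∈ Ioo (1 / 2 - R) (1 / 2 + R) ∧ z.im ∈ Ioo 0 (2 * T)},
            ENNReal.ofReal |Real.log ‖riemannZeta z‖| :=
            lintegral_mono_set (iUnion₂_subset hsub)
        _ ≤ _ := by
            refine hAT R ?_ ?_
            · rw [hR, div_le_div_iff₀ hT0 (by positivity)]
              linarith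
            · rw [hR, div_le_div_iff₀ (by positivity) hL0]
              nlinarith
    rw [← ENNReal.ofReal_natCast, ← ENNReal.ofReal_mul (Nat.cast_nonneg _),
      ENNReal.ofReal_le_ofReal_iff (by positivity)] at h1
    have h2 : (F2.card : ℝ) * (K * R) ≤ 2 * CA * T := by
      have h3 : ((F2.card : ℝ) * (K * R)) * (S * R / 2) ≤ (2 * CA * T) * (S * R / 2) := by
        calc _ = (F2.card : ℝ) * (K * S * R ^ 2 / 2) := by ring
          _ ≤ _ := h1
          _ = _ := by ring
      exact le_of_mul_le_mul_right h3 (by positivity)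
    have h3 : K * R = 4 * CA / (ε * L) := by
      rw [hK, hR]; exact alg2 hε hL0 hδ
    rw [h3] at h2
    have h4 : (F2.card : ℝ) * (4 * CA / (ε * L)) = ((F2.card : ℝ) / (ε / 2 * L)) * (2 * CA) :=
      alg1 hε hL0
    rw [h4, show 2 * CA * T = T * (2 * CA) by ring] at h2
    have h5 := le_of_mul_le_mul_right h2 (by positivity)
    rw [div_le_iff₀ (by positivity)] at h5
    linarith
  -- the zeros without good points
  set w : ℝ := θ * (R / 4) with hw
  have hw0 : 0 < w := by positivity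
  have hwR : w ≤ R := by
    rw [hw]; nlinarith
  have hc1 : (F1.card : ℝ) ≤ ε / 2 * (T * L) := by
    have hIX : ∀ s ∈ F1, Icc (s.im + w / 2) (s.im + w) ⊆ X := by
      intro s hs t ht
      by_contra htX
      rw [hF1, Finset.mem_filter] at hs
      obtain ⟨hsF, hsA⟩ := hs
      push Not at hsA
      obtain ⟨p1, p2, p3, p4, p5, p6, p7, p8⟩ := hprop s hsF
      have htT : t ∈ Icc T (2 * T) := ⟨by linarith [ht.1], by linarith [ht.2]⟩
      obtain ⟨-, hloc⟩ := hXs t htT htX
      have hs1 : s ≠ 1 := by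
        rintro rfl
        simp at p6
        linarith
      have h1 := one_zero (C := C) (θ := θ) (K := K) (S := S) (L := L) (δ := δ) (W := W)
        (η := ε / 10) (T := T) hzm hC1 hθ0 hθ4 hCθ hK0 hS1 hL1 hL hδ hδ1 hH p3 p1 (by linarith)
        (deriv_ne_of_simple hs1 p3 p2) (hiso s hsF) hsA (t := t) (by linarith [ht.1])
        (by linarith [ht.2]) hloc
      have h2 : C * θ * (3 * K + 8) * S ≤ ε / 4 * S := by gcongr
      have h3 : 0 < ε * S := by positivity
      have h4 : C * θ * (3 * K + 8) * S + W + ε / 10 * S + |Real.log (θ * δ / 16)| ≤ ε * S := by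
        have : W + |Real.log (θ * δ / 16)| ≤ ε / 2 * S := hSD
        linarith
      linarith
    have hdisj : (↑F1 : Set ℂ).PairwiseDisjoint fun s => Icc (s.im + w / 2) (s.im + w) := by
      intro s hs s' hs' hne
      have hs := Finset.mem_of_mem_filter s (Finset.mem_coe.mp hs)
      have hs' := Finset.mem_of_mem_filter s' (Finset.mem_coe.mp hs')
      have h1 := hsepim s hs s' hs' hne
      rw [hRL] at h1
      rw [Function.onFun, Set.disjoint_left]
      intro t ht ht'
      rcases le_abs.mp h1 with h | h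
      · linarith [ht.1, ht'.2]
      · linarith [ht.2, ht'.1]
    have h1 : (F1.card : ENNReal) * ENNReal.ofReal (w / 2) ≤ ENNReal.ofReal (ε * θ * δ / 32 * T) := by
      calc (F1.card : ENNReal) * ENNReal.ofReal (w / 2) = ∑ s ∈ F1, volume (Icc (s.im + w / 2) (s.im + w)) := by
            have : ∀ s ∈ F1, volume (Icc (s.im + w / 2) (s.im + w)) = ENNReal.ofReal (w / 2) := by
              intro s _
              rw [Real.volume_Icc]; congr 1; ring
            rw [Finset.sum_congr rfl this, Finset.sum_const, nsmul_eq_mul]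
        _ = volume (⋃ s ∈ F1, Icc (s.im + w / 2) (s.im + w)) := by
            rw [measure_biUnion_finset hdisj fun s _ => measurableSet_Icc]
        _ ≤ volume X := measure_mono (iUnion₂_subset hIX)
        _ ≤ _ := hXv
    rw [← ENNReal.ofReal_natCast, ← ENNReal.ofReal_mul (Nat.cast_nonneg _),
      ENNReal.ofReal_le_ofReal_iff (by positivity)] at h1
    have h2 : w / 2 = θ * δ / (16 * L) := by
      rw [hw, hR]; exact alg3 hL0
    rw [h2] at h1
    have h3 : (F1.card : ℝ) * (θ * δ / (16 * L)) = ((F1.card : ℝ) / L) * (θ * δ / 16) :=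
      alg4 hL0
    rw [h3, show ε * θ * δ / 32 * T = (ε / 2 * T) * (θ * δ / 16) by ring] at h1
    have h4 := le_of_mul_le_mul_right h1 (by positivity)
    rw [div_le_iff₀ hL0] at h4
    linarith
  change (F.card : ℝ) ≤ ε * (T * L)
  rw [hcard]
  push_cast
  linarith

end Pool.Agent.Y141.SW
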