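import Pool.Agent.Y141.SW.Der
import Pool.Agent.W354.ZP.Area

set_option autoImplicit false

/-! The area bound (helper141, for the SW project of helper745). -/

namespace Pool.Agent.Y141.SW

open MeasureTheory Filter Topology Set Metric Pool.Agent.Y745.SW Pool.Agent.W354.ZP

/-- the choice of `v` (copied from Pool/Agent/W354/ZP/Final.lean) -/
lemma adm_choice {X : ℝ} (h : 10 ≤ Real.log (Real.log X)) (hX : 1 < X) :
    ∃ v : ℕ, Adm X v ∧ 0 < v ∧ (v:ℝ) ≤ Real.sqrt (Real.log (Real.log X)) + 3 := by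
  set y : ℝ := Real.log (Real.log X) with hy
  have hs0 := Real.sqrt_nonneg y
  have hs2 : Real.sqrt y ^ 2 = y := Real.sq_sqrt (by linarith)
  have hL0 : 0 < Real.log X := Real.log_pos hX
  refine ⟨⌈Real.sqrt y⌉₊ + 2, ⟨by omega, ?_, ?_⟩, by omega, ?_⟩
  · have h1 : Real.sqrt y ≤ ((⌈Real.sqrt y⌉₊ + 2 : ℕ) : ℝ) := by
      push_cast
      linarith [Nat.le_ceil (Real.sqrt y)]
    calc y = Real.sqrt y ^ 2 := hs2.symm
      _ ≤ _ := pow_le_pow_left₀ hs0 h1 2
  · have h1 : ((⌈Real.sqrt y⌉₊ + 2 : ℕ) : ℝ) ≤ Real.sqrt y + 3 := by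
      push_cast
      linarith [Nat.ceil_lt_add_one hs0]
    have h2 : (((⌈Real.sqrt y⌉₊ + 2 : ℕ) : ℝ)) ^ 2 ≤ (Real.sqrt y + 3) ^ 2 :=
      pow_le_pow_left₀ (Nat.cast_nonneg _) h1 2
    have h3 : (Real.sqrt y + 3) ^ 2 ≤ 2 * y + 18 := by nlinarith [sq_nonneg (Real.sqrt y - 3)]
    have h4 : 2 * y + 18 ≤ Real.exp y := by
      have := Real.quadratic_le_exp_of_nonneg (show 0 ≤ y by linarith)
      nlinarith
    have h5 : Real.exp y = Real.log X := by rw [hy, Real.exp_log hL0]
    linarith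
  · push_cast
    linarith [Nat.ceil_lt_add_one hs0]

theorem ar : P_AR := by
  refine ⟨Real.exp 60 * 20, by positivity, ?_⟩
  have h4 : Tendsto (fun T : ℝ => 4 * T) atTop atTop := tendsto_id.const_mul_atTop (by norm_num)
  have hll : ∀ᶠ T : ℝ in atTop, 10 ≤ Real.log (Real.log (4 * T)) :=
    h4.eventually ((Real.tendsto_log_atTop.comp Real.tendsto_log_atTop).eventually_ge_atTop 10)
  filter_upwards [h4.eventually strip_area, hll, tendsto_S.eventually_ge_atTop 3,
    eventually_ge_atTop (100:ℝ)] with T hA hl hS hT R hR1 hR2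
  obtain ⟨v, hv, hv0, hvle⟩ := adm_choice hl (by linarith)
  have hT0 : 0 < T := by linarith
  have hlT : 1 ≤ Real.log T := by
    rw [Real.le_log_iff_exp_le hT0]
    have := Real.exp_one_lt_d9
    linarith
  have hL0 : 0 < Real.log T := by linarith
  have hlog4 : Real.log (4 * T) ≤ 2 * Real.log T := by
    rw [Real.log_mul (by norm_num) hT0.ne']
    have : Real.log 4 ≤ Real.log T := Real.log_le_log (by norm_num) (by linarith)
    linarith
  have hl4 : 0 < Real.log (4 * T) := Real.log_pos (by linarith)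
  set S := Real.sqrt (Real.log (Real.log T)) with hSd
  have hR0 : 0 < R := lt_of_lt_of_le (by positivity) hR1
  have h1 := hA v hv R ((one_div_le_one_div_of_le hT0 (by linarith)).trans hR1) (by
    refine hR2.trans ?_
    rw [div_le_div_iff₀ hL0 hl4]
    linarith)
  have hset : Rect R (4 * T / 2) =
      {z : ℂ | z.re ∈ Ioo (1 / 2 - R) (1 / 2 + R) ∧ z.im ∈ Ioo 0 (2 * T)} := by
    unfold Rect
    rw [show 4 * T / 2 = 2 * T by ring]
  rw [hset] at h1
  refine h1.trans (ENNReal.ofReal_le_ofReal ?_)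
  have hll0 : 0 < Real.log (Real.log T) := by
    by_contra h
    push Not at h
    have : S = 0 := Real.sqrt_eq_zero_of_nonpos h
    linarith
  have hsq : S ^ 2 = Real.log (Real.log T) := Real.sq_sqrt hll0.le
  have hv5 : (v : ℝ) ≤ 5 * S := by
    have h2 : Real.log (Real.log (4 * T)) ≤ (2 * S) ^ 2 := by
      have h3 : Real.log (Real.log (4 * T)) ≤ Real.log (2 * Real.log T) := Real.log_le_log hl4 hlog4
      rw [Real.log_mul (by norm_num) hL0.ne', ← hsq] at h3
      have := Real.log_two_lt_d9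
      nlinarith
    have h3 : Real.sqrt (Real.log (Real.log (4 * T))) ≤ 2 * S := by
      rw [Real.sqrt_le_left (by linarith)]
      exact h2
    linarith
  calc Real.exp 60 * (v * (4 * T) * R) ≤ Real.exp 60 * (5 * S * (4 * T) * R) := by gcongr
    _ = _ := by ring

end Pool.Agent.Y141.SW
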