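import Pool.Agent.Y141.SW.DerArea
import Pool.Agent.H370R2.DirGood
import Pool.Agent.TH806.LM.Fin

set_option autoImplicit false

/-! The derivative at almost all isolated zeros: final form (helper141, for the SW project of helper745). -/

namespace Pool.Agent.Y141.SW

open MeasureTheory Filter Topology Set Metric Pool.Agent.Y745.SW

theorem ll : P_LL := by
  intro ε hε
  obtain ⟨E, c, C, W, δ, mE, hc, hC, hW, hδ, hδδ, hq, h⟩ :=
    Pool.Agent.TH806.LM.a_FIN 0 ε (1 / 4) le_rfl hε (by norm_num)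
  refine ⟨E, W, δ, mE, hW, hδ, hδδ, ?_, ?_⟩
  · intro j t ht h1 h2
    obtain ⟨q1, q2⟩ := hq j t ht h1 h2
    have e : ((2 : ℝ) ^ j) ^ δ = 2 ^ (δ * j) := by
      rw [← Real.rpow_natCast, ← Real.rpow_mul (by norm_num)]
      congr 1; ring
    rw [e] at q2
    exact ⟨norm_pos_iff.mp q1, q2⟩
  filter_upwards [h 0 le_rfl (by norm_num), eventually_gt_atTop (1:ℝ)] with T hT hT1
  obtain ⟨a1, -, -⟩ := hT T (by rw [Real.rpow_zero, div_one]) le_rfl
  have e1 : volume.real (Set.Icc T (T + T)) = T := by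
    rw [Real.volume_real_Icc_of_le (by linarith)]; ring
  have e2 := measureReal_inter_add_sdiff (μ := volume) (s := Set.Icc T (T + T)) mE (by
    rw [Real.volume_Icc]; exact ENNReal.ofReal_ne_top)
  rw [Set.inter_comm E, two_mul]
  have e3 : Set.Icc T (T + T) \ E = Set.Icc T (T + T) ∩ Eᶜ := rfl
  rw [e3, e1] at e2
  linarith

theorem t_DER : P_HAR → P_BV → P_DX → P_DER :=
  der_of H370.good_zeta Pool.Agent.W354.ZP.zeta_meas ll ar

end Pool.Agent.Y141.SW
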